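import Pool.Agent.Helper75.EC.Stmts

open MvPolynomial

universe w

namespace Pool.Agent.Helper63.EC

open Pool.Agent.Helper75.EC

theorem BSJ_mono {K : Type*} [Field K] {σ : Type*} {F : MvPolynomial σ K} {p : σ → K} {m m' : ℕ}
    (h : OrdGe F p m) (hm : m' ≤ m) : OrdGe F p m' :=
  fun d hd => hm.trans (h d hd)

/-- a nonzero polynomial that vanishes on an irreducible nonempty set has an irreducible factor
that vanishes on it -/
theorem BSJ_factor {K : Type*} [Field K] {σ : Type*} [Finite σ] (J : Set (σ → K))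
    (hne : J.Nonempty)
    (hJ : ∀ F G : MvPolynomial σ K, (∀ p ∈ J, eval p (F * G) = 0) →
      (∀ p ∈ J, eval p F = 0) ∨ (∀ p ∈ J, eval p G = 0))
    (D : MvPolynomial σ K) (hD : D ≠ 0) (hv : ∀ p ∈ J, eval p D = 0) :
    ∃ F : MvPolynomial σ K, Irreducible F ∧ F ∣ D ∧ ∀ p ∈ J, eval p F = 0 := by
  revert hD hv
  refine WfDvdMonoid.induction_on_irreducible D ?_ ?_ ?_
  · intro h
    exact absurd rfl h
  · intro u hu _ hv
    obtain ⟨p, hp⟩ := hne
    have h1 := hu.map (eval p)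
    rw [hv p hp] at h1
    exact absurd h1 not_isUnit_zero
  · intro a i ha hi ih _ hv
    rcases hJ i a hv with h | h
    · exact ⟨i, hi, Dvd.intro _ rfl, h⟩
    · obtain ⟨F, hF, hFa, hF0⟩ := ih ha h
      exact ⟨F, hF, hFa.mul_left i, hF0⟩

/-- the vanishing ideal of the set -/
theorem BSJ_ideal {K : Type*} [Field K] [IsAlgClosed K] {σ : Type*} [Finite σ] (J : Set (σ → K))
    (F Δ D : MvPolynomial σ K) (hF : Irreducible F) (hFΔ : F ∣ Δ)
    (hv : ∀ p ∈ J, eval p F = 0) (hD : ∃ p ∈ J, eval p D ≠ 0)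
    (hJ : ∀ p, eval p Δ = 0 → eval p D ≠ 0 → p ∈ J) (G : MvPolynomial σ K) :
    (∀ p ∈ J, eval p G = 0) ↔ F ∣ G := by
  constructor
  · intro hG
    have hP : Prime F := hF.prime
    have h1 : D * G ∈ vanishingIdeal K (zeroLocus K (Ideal.span {F})) := by
      intro p hp
      have hp1 : eval p F = 0 := by
        have := hp F (Ideal.subset_span rfl)
        rwa [aeval_eq_eval] at this
      rw [aeval_eq_eval]
      change eval p (D * G) = 0
      rw [map_mul]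
      by_cases h : eval p D = 0
      · rw [h, zero_mul]
      · obtain ⟨Q, rfl⟩ := hFΔ
        rw [hG p (hJ p (by rw [map_mul, hp1, zero_mul]) h), mul_zero]
    have hprime : (Ideal.span {F} : Ideal (MvPolynomial σ K)).IsPrime :=
      (Ideal.span_singleton_prime hF.ne_zero).mpr hP
    rw [vanishingIdeal_zeroLocus_eq_radical, hprime.radical, Ideal.mem_span_singleton] at h1
    rcases hP.dvd_or_dvd h1 with h | h
    · obtain ⟨p, hp, hpD⟩ := hD
      obtain ⟨Q, rfl⟩ := h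
      exact absurd (by rw [map_mul, hv p hp, zero_mul]) hpD
    · exact h
  · rintro ⟨Q, rfl⟩ p hp
    rw [map_mul, hv p hp, zero_mul]

theorem BSJ_curve {K : Type*} [Field K] {n : ℕ} {u : Fin (n + 3) → Fin (n + 1) → K}
    {v : Fin (n + 3) → Fin (n + 2) → K} {t : Fin (n + 3) → K}
    {MA : Matrix (Fin (n + 1)) (Fin (n + 1)) K} {MB : Matrix (Fin (n + 2)) (Fin (n + 2)) K}
    (hfr : Frame u v t MA MB) : IsCurve u v MA⁻¹ MB⁻¹ := by
  have huA : IsUnit MA.det := isUnit_iff_ne_zero.mpr hfr.dA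
  have huB : IsUnit MB.det := isUnit_iff_ne_zero.mpr hfr.dB
  refine ⟨?_, ?_, fun i => ?_⟩
  · rw [Matrix.det_nonsing_inv]
    simpa using hfr.dA
  · rw [Matrix.det_nonsing_inv]
    simpa using hfr.dB
  · obtain ⟨c, hc, h1⟩ := hfr.hA i
    obtain ⟨c', hc', h2⟩ := hfr.hB i
    refine ⟨1, t i, c⁻¹, c'⁻¹, inv_ne_zero hc, inv_ne_zero hc', ?_, ?_⟩
    · have h3 : ver n 1 (t i) = c⁻¹ • MA.mulVec (u i) := by
        rw [h1]
        funext j
        simp [ver, inv_mul_cancel_left₀ hc]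
      rw [h3, Matrix.mulVec_smul, Matrix.mulVec_mulVec, Matrix.nonsing_inv_mul _ huA,
        Matrix.one_mulVec]
    · have h3 : ver (n + 1) 1 (t i) = c'⁻¹ • MB.mulVec (v i) := by
        rw [h2]
        funext j
        simp [ver, inv_mul_cancel_left₀ hc']
      rw [h3, Matrix.mulVec_smul, Matrix.mulVec_mulVec, Matrix.nonsing_inv_mul _ huB,
        Matrix.one_mulVec]

/-- a polynomial of bidegree `(0, 0)` is constant -/
theorem BSJ_const {K : Type*} [Field K] {r s : ℕ} (F : MvPolynomial (Fin r ⊕ Fin s) K)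
    (h : IsBihom F 0 0) : F = C (coeff 0 F) := by
  ext d
  rw [coeff_C]
  split_ifs with hd
  · rw [hd]
  · by_contra hne
    have h1 := h d (mem_support_iff.mpr hne)
    apply hd
    symm
    ext j
    rcases j with j | j
    · have := Finset.sum_eq_zero_iff.mp h1.1 j (Finset.mem_univ _)
      simpa using this
    · have := Finset.sum_eq_zero_iff.mp h1.2 j (Finset.mem_univ _)
      simpa using this

theorem st_BSJ (hBV : ST_BV.{w}) (hBP : ST_BP.{w}) (hBC : ST_BC.{w}) (hSEC1 : ST_SEC1.{w})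
    (hMUL2 : ST_MUL2.{w}) (hMUL3 : ST_MUL3.{w}) (hMUL4 : ST_MUL4.{w}) (hEXT : ST_EXT) :
    ST_BSJ.{w} := by
  classical
  intro K _ _ n u v hE t MA MB hfr α I hcard hα
  obtain ⟨hΔ0, hΔb, hΔm⟩ := hSEC1 K n u v t MA MB hfr α (α + 1) I (by omega) le_rfl (by omega) 1
    one_ne_zero (by simp)
  set Δ := (secM MA MB (rootP t I) 1 α (α + 1)).det with hΔ
  obtain ⟨D, ⟨p0, hp0, hp0D⟩, hD⟩ := hBC K n u v t MA MB hfr α I hcard hα
  obtain ⟨F, hF, ⟨Q, hFQ⟩, hFJ⟩ := BSJ_factor (joinSet u v MA⁻¹ MB⁻¹ I (2 * α)) ⟨p0, hp0⟩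
    (fun F G h => hBP K n u v MA⁻¹ MB⁻¹ I (2 * α) F G h) Δ hΔ0
    (hBV K n u v t MA MB hfr α I hcard hα)
  have hQ0 : Q ≠ 0 := by
    rintro rfl
    exact hΔ0 (by rw [hFQ, mul_zero])
  have hFQ0 : F * Q ≠ 0 := by rw [← hFQ]; exact hΔ0
  obtain ⟨a1, b1, a2, b2, hFb, hQb, ha, hb⟩ := hMUL4 K (n + 1) (n + 2) F Q α (α + 1)
    (by rw [← hFQ]; exact hΔb) hFQ0
  have hmF := fun i => hMUL3 K _ F (Sum.elim (u i) (v i)) hF.ne_zero
  choose mF hmF1 hmF2 using hmF
  have hmQ := fun i => hMUL3 K _ Q (Sum.elim (u i) (v i)) hQ0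
  choose mQ hmQ1 hmQ2 using hmQ
  have hle : ∀ i, α + (α + 1) - 1 + (if i ∈ I then 1 else 0) ≤ mF i + mQ i := by
    intro i
    by_contra hlt
    have h1 := hMUL2 K _ F Q (Sum.elim (u i) (v i)) _ _ (hmF2 i) (hmQ2 i)
    apply h1
    rw [← hFQ]
    exact BSJ_mono (hΔm i) (by omega)
  have hBSJ : IsBSJ u v F := by
    refine ⟨hF, MA⁻¹, MB⁻¹, BSJ_curve hfr, I, 2 * α, by omega, by omega, fun G => ?_⟩
    exact BSJ_ideal _ F Δ D hF ⟨Q, hFQ⟩ hFJ ⟨p0, hp0, hp0D⟩ hD G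
  have hmem : cls a1 b1 (fun i => (mF i : ℤ)) ∈ bsjClasses u v :=
    ⟨F, a1, b1, mF, hBSJ, hFb, fun i => ⟨hmF1 i, hmF2 i⟩, rfl⟩
  have hx : InC (cls a1 b1 (fun i => (mF i : ℤ)) : Cls n) := by
    apply hE
    apply subset_closure
    apply Submodule.subset_span
    refine ⟨a1, b1, _, ⟨F, hF.ne_zero, hFb, fun i => ?_⟩, rfl⟩
    simpa using hmF1 i
  set m2 : Fin (n + 3) → ℤ := fun i =>
    ((α + (α + 1) - 1 + (if i ∈ I then 1 else 0) : ℕ) : ℤ) - mF i with hm2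
  have hy : InC (cls a2 b2 m2 : Cls n) := by
    apply hE
    apply subset_closure
    apply Submodule.subset_span
    refine ⟨a2, b2, _, ⟨Q, hQ0, hQb, fun i => ?_⟩, rfl⟩
    refine BSJ_mono (hmQ1 i) ?_
    have := hle i
    simp only [hm2]
    omega
  have hsum : (cls a1 b1 (fun i => (mF i : ℤ)) : Cls n) + cls a2 b2 m2 =
      (1 : ℝ) • Dcls α (α + 1) I := by
    rw [one_smul]
    simp only [cls, Dcls, Prod.mk_add_mk, Prod.mk.injEq]
    refine ⟨by rw [← ha]; push_cast; ring, by rw [← hb]; push_cast; ring, ?_⟩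
    funext i
    simp only [Pi.add_apply, hm2]
    have h1 : α + (α + 1) - 1 = 2 * α := by omega
    rw [h1]
    split_ifs <;> push_cast <;> ring
  obtain ⟨s', hs', hs⟩ := hEXT n α (α + 1) I (by omega)
    ⟨le_rfl, Or.inr (Or.inr (Or.inr (Or.inr rfl)))⟩ _ _ hx hy 1 zero_le_one hsum
  have hs0 : s' ≠ 0 := by
    rintro rfl
    rw [zero_smul] at hs
    have ha1 : (a1 : ℝ) = 0 := congrArg Prod.fst hs
    have hb1 : (b1 : ℝ) = 0 := congrArg (fun x : Cls n => x.2.1) hs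
    have ha1' : a1 = 0 := by exact_mod_cast ha1
    have hb1' : b1 = 0 := by exact_mod_cast hb1
    subst ha1' hb1'
    have hc := BSJ_const F hFb
    have hne : coeff 0 F ≠ 0 := by
      intro h0
      rw [h0, map_zero] at hc
      exact hF.ne_zero hc
    apply hF.not_isUnit
    rw [hc]
    exact (isUnit_iff_ne_zero.mpr hne).map C
  have hfin : (Dcls α (α + 1) I : Cls n) =
      (⟨s'⁻¹, inv_nonneg.mpr hs'⟩ : NNReal) • cls a1 b1 (fun i => (mF i : ℤ)) := by
    change _ = s'⁻¹ • cls a1 b1 (fun i => (mF i : ℤ))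
    rw [hs, smul_smul, inv_mul_cancel₀ hs0, one_smul]
  rw [hfin]
  exact Submodule.smul_mem _ _ (Submodule.subset_span hmem)

end Pool.Agent.Helper63.EC
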