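import Pool.Agent.Helper75.EC.Stmts

open MvPolynomial

universe w

namespace Pool.Agent.Helper63.EC

open Pool.Agent.Helper75.EC

theorem PULL_shift {K : Type*} [Field K] {σ τ : Type*} (e : σ → τ)
    (G : MvPolynomial σ K) (p : σ → K) (q : τ → K) (hpq : ∀ j, q (e j) = p j) :
    (aeval (fun j => (X j + C (q j) : MvPolynomial τ K))) (rename e G) =
      rename e (aeval (fun j => (X j + C (p j) : MvPolynomial σ K)) G) := by
  rw [aeval_rename]
  have h2 : (rename e : MvPolynomial σ K →ₐ[K] MvPolynomial τ K)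
      (aeval (fun j => (X j + C (p j) : MvPolynomial σ K)) G) =
      ((rename e).comp (aeval (fun j => (X j + C (p j) : MvPolynomial σ K)))) G := rfl
  rw [h2]
  congr 1
  apply MvPolynomial.algHom_ext
  intro j
  simp [hpq]

theorem PULL_ordGe_iff {K : Type*} [Field K] {σ τ : Type*} (e : σ → τ)
    (he : Function.Injective e) (G : MvPolynomial σ K) (p : σ → K) (q : τ → K)
    (hpq : ∀ j, q (e j) = p j) (m : ℕ) : OrdGe (rename e G) q m ↔ OrdGe G p m := by
  classical
  unfold OrdGe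
  rw [PULL_shift e G p q hpq, support_rename_of_injective he]
  constructor
  · intro h d hd
    have := h _ (Finset.mem_image_of_mem _ hd)
    rwa [Finsupp.degree_mapDomain] at this
  · intro h d hd
    obtain ⟨d', hd', rfl⟩ := Finset.mem_image.mp hd
    rw [Finsupp.degree_mapDomain]
    exact h d' hd'

theorem PULL_bihom_inl {K : Type*} [Field K] {r s : ℕ} (G : MvPolynomial (Fin r) K) (d : ℕ) :
    IsBihom (rename (Sum.inl : Fin r → Fin r ⊕ Fin s) G) d 0 ↔ G.IsHomogeneous d := by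
  classical
  have hw : ∀ d' : Fin r →₀ ℕ, ∑ j, (Finsupp.mapDomain (Sum.inl : Fin r → Fin r ⊕ Fin s) d')
      (Sum.inl j) = Finsupp.weight 1 d' := by
    intro d'
    rw [Finsupp.weight_apply, Finsupp.sum_fintype _ _ (by simp)]
    apply Finset.sum_congr rfl
    intro j _
    rw [Finsupp.mapDomain_apply Sum.inl_injective]
    simp
  constructor
  · intro h d' hd'
    have h1 : Finsupp.mapDomain (Sum.inl : Fin r → Fin r ⊕ Fin s) d' ∈
        (rename (Sum.inl : Fin r → Fin r ⊕ Fin s) G).support := by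
      rw [support_rename_of_injective Sum.inl_injective]
      exact Finset.mem_image_of_mem _ (mem_support_iff.mpr hd')
    rw [← hw]
    exact (h _ h1).1
  · intro hG e he
    rw [support_rename_of_injective Sum.inl_injective] at he
    obtain ⟨d', hd', rfl⟩ := Finset.mem_image.mp he
    have h1 := hG (mem_support_iff.mp hd')
    constructor
    · rw [hw, h1]
    · apply Finset.sum_eq_zero
      intro j _
      apply Finsupp.mapDomain_of_notMem_range
      simp

theorem PULL_bihom_inr {K : Type*} [Field K] {r s : ℕ} (G : MvPolynomial (Fin s) K) (d : ℕ) :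
    IsBihom (rename (Sum.inr : Fin s → Fin r ⊕ Fin s) G) 0 d ↔ G.IsHomogeneous d := by
  classical
  have hw : ∀ d' : Fin s →₀ ℕ, ∑ j, (Finsupp.mapDomain (Sum.inr : Fin s → Fin r ⊕ Fin s) d')
      (Sum.inr j) = Finsupp.weight 1 d' := by
    intro d'
    rw [Finsupp.weight_apply, Finsupp.sum_fintype _ _ (by simp)]
    apply Finset.sum_congr rfl
    intro j _
    rw [Finsupp.mapDomain_apply Sum.inr_injective]
    simp
  constructor
  · intro h d' hd'
    have h1 : Finsupp.mapDomain (Sum.inr : Fin s → Fin r ⊕ Fin s) d' ∈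
        (rename (Sum.inr : Fin s → Fin r ⊕ Fin s) G).support := by
      rw [support_rename_of_injective Sum.inr_injective]
      exact Finset.mem_image_of_mem _ (mem_support_iff.mpr hd')
    rw [← hw]
    exact (h _ h1).2
  · intro hG e he
    rw [support_rename_of_injective Sum.inr_injective] at he
    obtain ⟨d', hd', rfl⟩ := Finset.mem_image.mp he
    have h1 := hG (mem_support_iff.mp hd')
    constructor
    · apply Finset.sum_eq_zero
      intro j _
      apply Finsupp.mapDomain_of_notMem_range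
      simp
    · rw [hw, h1]

/-- a polynomial of bidegree `(a, 0)` only depends on the first group of variables -/
theorem PULL_ex_inl {K : Type*} [Field K] {r s : ℕ} (F : MvPolynomial (Fin r ⊕ Fin s) K) (a : ℕ)
    (h : IsBihom F a 0) : ∃ G : MvPolynomial (Fin r) K, rename Sum.inl G = F := by
  apply exists_rename_eq_of_vars_subset_range F Sum.inl Sum.inl_injective
  intro j hj
  obtain ⟨d, hd, hj⟩ := mem_vars j |>.mp (Finset.mem_coe.mp hj)
  rcases j with j | j
  · exact ⟨j, rfl⟩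
  · exfalso
    have h1 := Finset.sum_eq_zero_iff.mp (h d hd).2 j (Finset.mem_univ _)
    exact (Finsupp.mem_support_iff.mp hj) h1

theorem PULL_ex_inr {K : Type*} [Field K] {r s : ℕ} (F : MvPolynomial (Fin r ⊕ Fin s) K) (a : ℕ)
    (h : IsBihom F 0 a) : ∃ G : MvPolynomial (Fin s) K, rename Sum.inr G = F := by
  apply exists_rename_eq_of_vars_subset_range F Sum.inr Sum.inr_injective
  intro j hj
  obtain ⟨d, hd, hj⟩ := mem_vars j |>.mp (Finset.mem_coe.mp hj)
  rcases j with j | j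
  · exfalso
    have h1 := Finset.sum_eq_zero_iff.mp (h d hd).1 j (Finset.mem_univ _)
    exact (Finsupp.mem_support_iff.mp hj) h1
  · exact ⟨j, rfl⟩

/-- pulling back effective classes from the first factor -/
theorem PULL_eff_inl {K : Type*} [Field K] {n : ℕ} (u : Fin (n + 3) → Fin (n + 1) → K)
    (v : Fin (n + 3) → Fin (n + 2) → K) (y : ℝ × (Fin (n + 3) → ℝ)) (hy : y ∈ EffP u) :
    ((y.1, 0, y.2) : Cls n) ∈ Eff u v := by
  let L : (ℝ × (Fin (n + 3) → ℝ)) →ₗ[NNReal] Cls n :=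
    { toFun := fun y => (y.1, 0, y.2)
      map_add' := by intro y z; simp
      map_smul' := by intro c y; simp }
  have hL : Continuous L := by
    change Continuous fun y : ℝ × (Fin (n + 3) → ℝ) => ((y.1, 0, y.2) : Cls n)
    fun_prop
  have h2 : L y ∈ closure (L '' (Submodule.span NNReal {x | ∃ (d : ℕ)
      (m : Fin (n + 3) → ℤ), (∃ G : MvPolynomial (Fin (n + 1)) K,
      G ≠ 0 ∧ G.IsHomogeneous d ∧ ∀ i, OrdGe G (u i) (m i).toNat) ∧
      x = ((d : ℝ), fun i => (m i : ℝ))} : Set (ℝ × (Fin (n + 3) → ℝ)))) :=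
    image_closure_subset_closure_image hL ⟨y, hy, rfl⟩
  refine closure_mono ?_ h2
  rw [← Submodule.map_coe, Submodule.map_span]
  apply Submodule.span_mono
  rintro _ ⟨_, ⟨d, m, ⟨G, hG, hGh, hGm⟩, rfl⟩, rfl⟩
  refine ⟨d, 0, m, ⟨rename Sum.inl G, ?_, (PULL_bihom_inl G d).mpr hGh, fun i => ?_⟩, ?_⟩
  · intro h0
    apply hG
    exact rename_injective _ Sum.inl_injective (by rw [h0, map_zero])
  · exact (PULL_ordGe_iff Sum.inl Sum.inl_injective G (u i) _ (fun j => rfl) _).mpr (hGm i)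
  · simp [L, cls]

theorem PULL_eff_inr {K : Type*} [Field K] {n : ℕ} (u : Fin (n + 3) → Fin (n + 1) → K)
    (v : Fin (n + 3) → Fin (n + 2) → K) (y : ℝ × (Fin (n + 3) → ℝ)) (hy : y ∈ EffP v) :
    ((0, y.1, y.2) : Cls n) ∈ Eff u v := by
  let L : (ℝ × (Fin (n + 3) → ℝ)) →ₗ[NNReal] Cls n :=
    { toFun := fun y => (0, y.1, y.2)
      map_add' := by intro y z; simp; rfl
      map_smul' := by intro c y; simp; rfl }
  have hL : Continuous L := by
    change Continuous fun y : ℝ × (Fin (n + 3) → ℝ) => ((0, y.1, y.2) : Cls n)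
    fun_prop
  have h2 : L y ∈ closure (L '' (Submodule.span NNReal {x | ∃ (d : ℕ)
      (m : Fin (n + 3) → ℤ), (∃ G : MvPolynomial (Fin (n + 1 + 1)) K,
      G ≠ 0 ∧ G.IsHomogeneous d ∧ ∀ i, OrdGe G (v i) (m i).toNat) ∧
      x = ((d : ℝ), fun i => (m i : ℝ))} : Set (ℝ × (Fin (n + 3) → ℝ)))) :=
    image_closure_subset_closure_image hL ⟨y, hy, rfl⟩
  refine closure_mono ?_ h2
  rw [← Submodule.map_coe, Submodule.map_span]
  apply Submodule.span_mono
  rintro _ ⟨_, ⟨d, m, ⟨G, hG, hGh, hGm⟩, rfl⟩, rfl⟩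
  refine ⟨0, d, m, ⟨rename Sum.inr G, ?_, (PULL_bihom_inr G d).mpr hGh, fun i => ?_⟩, ?_⟩
  · intro h0
    apply hG
    exact rename_injective _ Sum.inr_injective (by rw [h0, map_zero])
  · exact (PULL_ordGe_iff Sum.inr Sum.inr_injective G (v i) _ (fun j => rfl) _).mpr (hGm i)
  · simp [L, cls]

theorem st_PULL1 (hSEC1 : ST_SEC1.{w}) (hEXT : ST_EXT) : ST_PULL1.{w} := by
  classical
  intro K _ _ n u v hE t MA MB hfr α I hcard hα
  obtain ⟨hΔ0, hΔb, hΔm⟩ := hSEC1 K n u v t MA MB hfr α 0 I (by omega) (by omega) (by omega) 1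
    one_ne_zero (by simp)
  obtain ⟨G, hG⟩ := PULL_ex_inl _ α hΔb
  rw [← hG] at hΔ0 hΔb hΔm
  have hG0 : G ≠ 0 := by
    rintro rfl
    exact hΔ0 (map_zero _)
  have hGh := (PULL_bihom_inl G α).mp hΔb
  have hcls : ∀ i, (((α + 0 - 1 + (if i ∈ I then 1 else 0) : ℕ) : ℤ) : ℝ) =
      (α : ℝ) + (0 : ℕ) - 1 + if i ∈ I then 1 else 0 := by
    intro i
    obtain ⟨k, rfl⟩ : ∃ k, α = k + 1 := ⟨α - 1, by omega⟩
    split_ifs <;> push_cast <;> simp
  refine Or.inl ⟨(α : ℝ), fun i => (α : ℝ) + (0 : ℕ) - 1 + if i ∈ I then 1 else 0,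
    ⟨?_, ?_, ?_⟩, ?_⟩
  · apply subset_closure
    apply Submodule.subset_span
    refine ⟨α, fun i => ((α + 0 - 1 + (if i ∈ I then 1 else 0) : ℕ) : ℤ), ⟨G, hG0, hGh,
      fun i => ?_⟩, ?_⟩
    · have := (PULL_ordGe_iff Sum.inl Sum.inl_injective G (u i) _ (fun j => rfl) _).mp (hΔm i)
      simpa only [Int.toNat_natCast] using this
    · simp only [Prod.mk.injEq, true_and]
      funext i
      exact (hcls i).symm
  · intro h
    have h1 : (α : ℝ) = 0 := congrArg Prod.fst h
    have h2 : α = 0 := by exact_mod_cast h1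
    omega
  · intro y hy z hz hyz
    have hy1 := hE _ (PULL_eff_inl u v y hy)
    have hz1 := hE _ (PULL_eff_inl u v z hz)
    obtain ⟨s', hs', hs⟩ := hEXT n α 0 I (by omega) ⟨by omega, Or.inl rfl⟩ _ _ hy1 hz1 1
      zero_le_one (by
        rw [one_smul]
        have h1 := congrArg Prod.fst hyz
        have h2 := congrArg Prod.snd hyz
        simp only [Prod.fst_add, Prod.snd_add] at h1 h2
        simp only [Dcls, Prod.mk_add_mk, Prod.mk.injEq]
        exact ⟨h1, by simp, h2⟩)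
    refine ⟨s', hs', ?_⟩
    have h1 := congrArg Prod.fst hs
    have h2 := congrArg (fun x : Cls n => x.2.2) hs
    exact Prod.ext h1 h2
  · simp [Dcls]

theorem st_PULL2 (hSEC1 : ST_SEC1.{w}) (hEXT : ST_EXT) : ST_PULL2.{w} := by
  classical
  intro K _ _ n u v hE t MA MB hfr I hcard
  obtain ⟨hΔ0, hΔb, hΔm⟩ := hSEC1 K n u v t MA MB hfr 0 1 I (by omega) (by omega) (by omega) 1
    one_ne_zero (by simp)
  obtain ⟨G, hG⟩ := PULL_ex_inr _ 1 hΔb
  rw [← hG] at hΔ0 hΔb hΔm
  have hG0 : G ≠ 0 := by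
    rintro rfl
    exact hΔ0 (map_zero _)
  have hGh := (PULL_bihom_inr G 1).mp hΔb
  have hcls : ∀ i, (((0 + 1 - 1 + (if i ∈ I then 1 else 0) : ℕ) : ℤ) : ℝ) =
      ((0 : ℕ) : ℝ) + (1 : ℕ) - 1 + if i ∈ I then 1 else 0 := by
    intro i
    split_ifs <;> simp
  refine Or.inr ⟨((1 : ℕ) : ℝ), fun i => ((0 : ℕ) : ℝ) + (1 : ℕ) - 1 + if i ∈ I then 1 else 0,
    ⟨?_, ?_, ?_⟩, ?_⟩
  · apply subset_closure
    apply Submodule.subset_span
    refine ⟨1, fun i => ((0 + 1 - 1 + (if i ∈ I then 1 else 0) : ℕ) : ℤ), ⟨G, hG0, hGh,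
      fun i => ?_⟩, ?_⟩
    · have := (PULL_ordGe_iff Sum.inr Sum.inr_injective G (v i) _ (fun j => rfl) _).mp (hΔm i)
      simpa only [Int.toNat_natCast] using this
    · simp only [Prod.mk.injEq, true_and]
      funext i
      exact (hcls i).symm
  · intro h
    have h1 : ((1 : ℕ) : ℝ) = 0 := congrArg Prod.fst h
    simp at h1
  · intro y hy z hz hyz
    have hy1 := hE _ (PULL_eff_inr u v y hy)
    have hz1 := hE _ (PULL_eff_inr u v z hz)
    obtain ⟨s', hs', hs⟩ := hEXT n 0 1 I (by omega) ⟨by omega, Or.inr (Or.inl rfl)⟩ _ _ hy1 hz1 1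
      zero_le_one (by
        rw [one_smul]
        have h1 := congrArg Prod.fst hyz
        have h2 := congrArg Prod.snd hyz
        simp only [Prod.fst_add, Prod.snd_add] at h1 h2
        simp only [Dcls, Prod.mk_add_mk, Prod.mk.injEq]
        exact ⟨by simp, h1, h2⟩)
    refine ⟨s', hs', ?_⟩
    have h1 := congrArg (fun x : Cls n => x.2.1) hs
    have h2 := congrArg (fun x : Cls n => x.2.2) hs
    exact Prod.ext h1 h2
  · simp [Dcls]

end Pool.Agent.Helper63.EC
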